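import Pool.Agent.H590R3.NucStmts
import Pool.Agent.H812R2.AP.NoAP

set_option autoImplicit false

/-! # Davie data (TaskDavie of the H590-NUC project) -/

open Filter Topology Finset
open scoped BoundedContinuousFunction

noncomputable section

namespace Pool.Agent.H431R3.Nuc

open Pool.Agent.H590R3.Nuc Pool.Agent.H812R2.AP Pool.Agent.BAPp

variable (s : Sys)

/-- coordinate functionals -/
def co (p : ℕ × ℕ) : s.XT ℝ →L[ℝ] ℝ :=
  LinearMap.mkContinuous
    { toFun := fun x => s.val ℝ x p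
      map_add' := fun x y => by rw [map_add]; rfl
      map_smul' := fun c x => by rw [map_smul]; rfl } 1
    (fun x => by
      rw [one_mul]
      exact (s.val ℝ x).norm_coe_le_norm p)

lemma co_apply (p : ℕ × ℕ) (x : s.XT ℝ) : co s p x = s.val ℝ x p := rfl

lemma co_le (p : ℕ × ℕ) (x : s.XT ℝ) : |co s p x| ≤ ‖x‖ := (s.val ℝ x).norm_coe_le_norm p

lemma norm_co_le (p : ℕ × ℕ) : ‖co s p‖ ≤ 1 := LinearMap.mkContinuous_norm_le _ zero_le_one _

/-- elements of the space vanish off the finite rows -/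
lemma off {x : Z ℝ} (hx : x ∈ s.X ℝ) (k g : ℕ) (hg : ¬ g < 2 ^ (k + 2)) : x (k, g) = 0 := by
  refine s.X_induction (p := fun x => x (k, g) = 0) ?_ ?_ ?_ ?_ ?_ hx
  · intro l i _
    rw [s.E_apply ℝ]
    have : ee s.sg s.tt l i (k, g) = 0 := by
      unfold ee
      rw [if_neg hg]
    rw [this]; simp
  · rfl
  · intro x y hx hy
    rw [BoundedContinuousFunction.add_apply, hx, hy, add_zero]
  · intro c x hx
    rw [BoundedContinuousFunction.smul_apply, hx, smul_zero]
  · exact isClosed_eq (continuous_eval_const _) continuous_const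

lemma tendsto_co (x : s.XT ℝ) : Tendsto (fun p : ℕ × ℕ => co s p x) cofinite (𝓝 0) := by
  rw [Metric.tendsto_nhds]
  intro ε hε
  obtain ⟨K, hK⟩ := s.small (s.val_mem ℝ x) (ε / 2) (by positivity)
  rw [Filter.eventually_cofinite]
  refine Set.Finite.subset ((Finset.range K ×ˢ Finset.range (2 ^ (K + 2))).finite_toSet) ?_
  rintro ⟨k, g⟩ h
  rw [Set.mem_ofPred_eq, dist_zero_right, not_lt, co_apply] at h
  have hk : k < K := by
    by_contra hk
    have := hK k (not_lt.1 hk) g
    linarith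
  have hg : g < 2 ^ (k + 2) := by
    by_contra hg
    rw [off s (s.val_mem ℝ x) k g hg, norm_zero] at h
    linarith
  rw [Finset.mem_coe, Finset.mem_product, Finset.mem_range, Finset.mem_range]
  refine ⟨hk, lt_of_lt_of_le hg (Nat.pow_le_pow_right (by norm_num) (by omega))⟩

lemma isCoord : IsCoord (fun n => co s (Nat.unpair n)) where
  le n y := co_le s _ y
  norm_le y c hc h := by
    rw [← s.norm_val ℝ y]
    refine (BoundedContinuousFunction.norm_le hc).2 fun p => ?_
    have := h (Nat.pair p.1 p.2)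
    rw [Nat.unpair_pair] at this
    exact this
  tendsto y := by
    rw [← Nat.cofinite_eq_atTop]
    exact (tendsto_co s y).comp (Nat.pairEquiv.symm.injective.tendsto_cofinite)

/-- the finite dimensional pieces -/
def EE (n : ℕ) : Submodule ℝ (s.XT ℝ) :=
  Submodule.span ℝ {z | ∃ l i, l ≤ n ∧ i < 2 ^ l ∧ z = s.EX ℝ l i}

lemma EE_mono : Monotone (EE s) := by
  intro m n hmn
  refine Submodule.span_mono ?_
  rintro z ⟨l, i, hl, hi, rfl⟩
  exact ⟨l, i, hl.trans hmn, hi, rfl⟩

lemma EE_fin (n : ℕ) : FiniteDimensional ℝ (EE s n) := by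
  classical
  refine FiniteDimensional.span_of_finite ℝ ?_
  refine Set.Finite.subset
    ((Finset.image (fun p : ℕ × ℕ => s.EX ℝ p.1 p.2)
      (Finset.range (n + 1) ×ˢ Finset.range (2 ^ n))).finite_toSet) ?_
  rintro z ⟨l, i, hl, hi, rfl⟩
  rw [Finset.mem_coe, Finset.mem_image]
  refine ⟨(l, i), ?_, rfl⟩
  rw [Finset.mem_product, Finset.mem_range, Finset.mem_range]
  exact ⟨by dsimp only; omega, lt_of_lt_of_le hi (Nat.pow_le_pow_right (by norm_num) hl)⟩

lemma EX_mem {l i n : ℕ} (hl : l ≤ n) (hi : i < 2 ^ l) : s.EX ℝ l i ∈ EE s n :=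
  Submodule.subset_span ⟨l, i, hl, hi, rfl⟩

lemma Phi_mem (k g : ℕ) : s.Phi ℝ k g ∈ EE s (k + 1) := by
  unfold Sys.Phi
  refine Submodule.sub_mem _ (Submodule.smul_mem _ _ (Submodule.sum_mem _ fun j hj =>
    Submodule.smul_mem _ _ (EX_mem s le_rfl (mem_range.1 hj))))
    (Submodule.smul_mem _ _ (Submodule.sum_mem _ fun j hj =>
    Submodule.smul_mem _ _ (EX_mem s (Nat.le_succ k) (mem_range.1 hj))))

/-- the functional `al 0 0` -/
def f0 : s.XT ℝ →L[ℝ] ℝ :=
  LinearMap.mkContinuous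
    { toFun := fun x => s.al 0 0 (s.val ℝ x)
      map_add' := fun x y => by rw [map_add, s.al_add]
      map_smul' := fun c x => by rw [map_smul, s.al_smul]; rfl } 1
    (fun x => by
      rw [one_mul]
      exact s.norm_al_le 0 0 _ fun g => (s.val ℝ x).norm_coe_le_norm _)

lemma f0_apply (x : s.XT ℝ) : f0 s x = s.al 0 0 (s.val ℝ x) := rfl

/-- index type -/
abbrev Ix := Unit ⊕ Sys.Idx

/-- functionals -/
def ff : Ix → (s.XT ℝ →L[ℝ] ℝ) := Sum.elim (fun _ => f0 s) (fun p => co s (p.1, p.2))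

/-- vectors -/
def yy : Ix → s.XT ℝ :=
  Sum.elim (fun _ => s.EX ℝ 0 0) (fun p => (1 / 2 ^ (p.1 + 2) : ℝ) • s.Phi ℝ p.1 p.2)

lemma cc_nonneg (k : ℕ) : 0 ≤ Sys.cc k := by unfold Sys.cc; positivity

lemma summable_cc : Summable (fun k : ℕ => Sys.cc k) := by
  have h := Sys.tendsto_cc
  have h1 : ∀ᶠ k : ℕ in atTop, (4 / 3 : ℝ) ^ k * Sys.cc k < 1 :=
    (h.eventually (gt_mem_nhds zero_lt_one))
  have hs : Summable (fun k : ℕ => (3 / 4 : ℝ) ^ k) :=
    summable_geometric_of_lt_one (by norm_num) (by norm_num)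
  refine hs.of_norm_bounded_eventually_nat ?_
  filter_upwards [h1] with k hk
  rw [Real.norm_of_nonneg (cc_nonneg k)]
  have h2 : (3 / 4 : ℝ) ^ k * ((4 / 3 : ℝ) ^ k * Sys.cc k) ≤ (3 / 4 : ℝ) ^ k * 1 :=
    mul_le_mul_of_nonneg_left hk.le (by positivity)
  rw [← mul_assoc, ← mul_pow] at h2
  norm_num at h2
  exact h2

lemma summable_main : Summable (fun i : Ix => ‖ff s i‖ * ‖yy s i‖) := by
  refine Summable.sum _ ?_ ?_
  · exact (hasSum_fintype _).summable
  · have h0 : ∀ p : Sys.Idx, ‖ff s (Sum.inr p)‖ * ‖yy s (Sum.inr p)‖ ≤ 1 / 2 ^ (p.1 + 2) * Sys.cc p.1 := by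
      intro p
      have h1 : ‖ff s (Sum.inr p)‖ ≤ 1 := norm_co_le s _
      have h2 : ‖yy s (Sum.inr p)‖ ≤ 1 / 2 ^ (p.1 + 2) * Sys.cc p.1 := by
        have : yy s (Sum.inr p) = (1 / 2 ^ (p.1 + 2) : ℝ) • s.Phi ℝ p.1 p.2 := rfl
        rw [this, norm_smul, Real.norm_of_nonneg (by positivity)]
        exact mul_le_mul_of_nonneg_left (s.norm_Phi_le ℝ _ _ p.2.2) (by positivity)
      calc ‖ff s (Sum.inr p)‖ * ‖yy s (Sum.inr p)‖ ≤ 1 * (1 / 2 ^ (p.1 + 2) * Sys.cc p.1) :=
            mul_le_mul h1 h2 (norm_nonneg _) zero_le_one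
        _ = _ := one_mul _
    have h3 : Summable (fun p : Sys.Idx => (1 / 2 ^ (p.1 + 2) : ℝ) * Sys.cc p.1) := by
      rw [summable_sigma_of_nonneg]
      · refine ⟨fun k => (hasSum_fintype _).summable, ?_⟩
        have h4 : ∀ k : ℕ, ∑' _ : Fin (2 ^ (k + 2)), (1 / 2 ^ (k + 2) : ℝ) * Sys.cc k = Sys.cc k := by
          intro k
          rw [tsum_fintype, Finset.sum_const, Finset.card_univ, Fintype.card_fin, nsmul_eq_mul]
          push_cast
          field_simp
        simp only [h4]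
        exact summable_cc
      · intro p
        have := cc_nonneg p.1
        positivity
    exact Summable.of_nonneg_of_le (fun p => mul_nonneg (norm_nonneg _) (norm_nonneg _)) h0 h3

lemma hasSum_main (T : s.XT ℝ →L[ℝ] s.XT ℝ) (L : ℝ)
    (hT : Tendsto (fun k => s.beta k T) atTop (𝓝 L)) :
    HasSum (fun i : Ix => ff s i (T (yy s i))) L := by
  have hsum : Summable (fun i : Ix => ff s i (T (yy s i))) := by
    refine Summable.of_norm_bounded ((summable_main s).mul_left ‖T‖) fun i => ?_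
    refine ((ff s i).le_opNorm _).trans ?_
    have := mul_le_mul_of_nonneg_left (T.le_opNorm (yy s i)) (norm_nonneg (ff s i))
    refine this.trans (le_of_eq (by ring))
  have h1 : HasSum ((fun i : Ix => ff s i (T (yy s i))) ∘ Sum.inl) (s.beta 0 T) := by
    have : s.beta 0 T = ∑ u : Unit, ((fun i : Ix => ff s i (T (yy s i))) ∘ Sum.inl) u := by
      rw [Finset.univ_unique, Finset.sum_singleton]
      unfold Sys.beta
      rw [pow_zero, pow_zero, div_one, one_mul, Finset.sum_range_one]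
      rfl
    rw [this]
    exact hasSum_fintype _
  have h2 : HasSum ((fun i : Ix => ff s i (T (yy s i))) ∘ Sum.inr) (L - s.beta 0 T) := by
    refine HasSum.sigma_of_hasSum (g := fun k => s.beta (k + 1) T - s.beta k T) ?_ ?_
      (hsum.comp_injective Sum.inr_injective)
    · have hs2 : Summable (fun k => s.beta (k + 1) T - s.beta k T) := by
        refine Summable.of_norm_bounded (summable_cc.mul_left ‖T‖) fun k => ?_
        refine s.norm_beta_succ k T fun g hg => ?_
        exact (T.le_opNorm _).trans (mul_le_mul_of_nonneg_left (s.norm_Phi_le ℝ k g hg)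
          (norm_nonneg _))
      rw [hs2.hasSum_iff_tendsto_nat]
      have e : ∀ n : ℕ, ∑ i ∈ range n, (s.beta (i + 1) T - s.beta i T) = s.beta n T - s.beta 0 T :=
        fun n => Finset.sum_range_sub (fun k => s.beta k T) n
      simp only [e]
      exact hT.sub_const _
    · intro k
      have h3 : s.beta (k + 1) T - s.beta k T =
          ∑ g : Fin (2 ^ (k + 2)), ((fun i : Ix => ff s i (T (yy s i))) ∘ Sum.inr) ⟨k, g⟩ := by
        rw [s.beta_succ, Finset.mul_sum, ← Fin.sum_univ_eq_sum_range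
          (fun g => (1 / 2 ^ (k + 2) : ℝ) * (s.val ℝ (T (s.Phi ℝ k g))) (k, g))]
        refine Finset.sum_congr rfl fun g _ => ?_
        have h4 : ((fun i : Ix => ff s i (T (yy s i))) ∘ Sum.inr) (⟨k, g⟩ : Sys.Idx) =
            co s (k, (g : ℕ)) (T ((1 / 2 ^ (k + 2) : ℝ) • s.Phi ℝ k g)) := rfl
        rw [h4, map_smul, map_smul, co_apply, smul_eq_mul]
      rw [h3]
      exact hasSum_fintype _
  have h5 := h1.sum h2
  rw [add_sub_cancel] at h5
  exact h5

lemma yy_mem (i : Ix) : ∃ n, yy s i ∈ EE s n := by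
  rcases i with u | p
  · exact ⟨0, EX_mem s (l := 0) (i := 0) le_rfl (by norm_num)⟩
  · exact ⟨p.1 + 1, Submodule.smul_mem _ _ (Phi_mem s _ _)⟩

theorem taskDavie : TaskDavie := by
  obtain ⟨s⟩ := exists_sys
  refine ⟨s.XT ℝ, inferInstance, inferInstance, inferInstance, fun n => co s (Nat.unpair n),
    EE s, Ix, ff s, yy s, ?_⟩
  refine ⟨isCoord s, EE_mono s, EE_fin s, summable_main s, ?_, ?_, yy_mem s⟩
  · have h := hasSum_main s 1 1 (by
      simp only [s.beta_one]
      exact tendsto_const_nhds)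
    exact h
  · intro g w
    have hfin : FiniteDimensional ℝ (LinearMap.range
        ((g.smulRight w : s.XT ℝ →L[ℝ] s.XT ℝ) : s.XT ℝ →ₗ[ℝ] s.XT ℝ)) := by
      have hle : LinearMap.range
        ((g.smulRight w : s.XT ℝ →L[ℝ] s.XT ℝ) : s.XT ℝ →ₗ[ℝ] s.XT ℝ) ≤ Submodule.span ℝ {w} := by
        rintro _ ⟨x, rfl⟩
        exact Submodule.smul_mem _ _ (Submodule.mem_span_singleton_self w)
      have : FiniteDimensional ℝ (Submodule.span ℝ {w}) :=
        FiniteDimensional.span_of_finite ℝ (Set.finite_singleton w)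
      exact Submodule.finiteDimensional_of_le hle
    have h := hasSum_main s (g.smulRight w) 0 (s.tendsto_beta _ hfin)
    have e : ∀ i : Ix, ff s i ((g.smulRight w : s.XT ℝ →L[ℝ] s.XT ℝ) (yy s i)) =
        g (yy s i) * ff s i w := by
      intro i
      rw [ContinuousLinearMap.smulRight_apply, map_smul, smul_eq_mul]
    simp only [e] at h
    exact h

end Pool.Agent.H431R3.Nuc
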